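import Pool.Agent.MP_187b32_an.PD.Small.Loc
import Pool.Agent.MP_187b32_an.Prof.Side

-- ======== part 0: formerly Pool.Agent.MP_187b32_an.PD.OutU
section MrgPart0

/-!
The outer part of the profile from `q = 1` on, uniformly in the dimension, by linear barriers.
-/

set_option autoImplicit false

open Set
open scoped ContDiff

namespace Pool.Agent.MP_187b32_an.PD

open Pool.Agent.MP_187b32_an.Prof (tube_ode)

/-- The window of the parameters `e` and `r`. -/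
structure Win (e r : ℝ) : Prop where
  e0 : 0 ≤ e
  e1 : e ≤ 1 / 2
  r0 : 1036 / 1000 ≤ r
  r1 : 13 / 10 - 3 / 5 * e ≤ r
  r2 : r ≤ 7 / 5 - 7 / 10 * e

section
variable {e r q y w t : ℝ}

lemma u_w (h : Win e r) (hq : q ∈ Icc (-1 / 10 : ℝ) 1)
    (hy : y ∈ Icc (-31 / 50 + 2 / 5 * e + 3 / 10 * q) (9 / 20 - 1 / 2 * q)) :
    -321 / 1000 + 173 / 500 * e ≤ q * y ∧ q * y ≤ 11 / 100 := by
  obtain ⟨e0, e1, -, -, -⟩ := h
  obtain ⟨h1, h2⟩ := hq
  obtain ⟨h3, h4⟩ := hy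
  rcases le_total 0 q with h | h
  · constructor
    · have a1 := mul_le_mul_of_nonneg_left h3 h
      nlinarith [sq_nonneg (q - 31 / 30 + 2 / 3 * e), mul_nonneg e0 (sub_nonneg.2 e1)]
    · have a1 := mul_le_mul_of_nonneg_left h4 h
      nlinarith [sq_nonneg (q - 9 / 20)]
  · constructor <;> nlinarith

lemma u_s (h : Win e r) (ht : t ≤ 1) (hw : -321 / 1000 + 173 / 500 * e ≤ w) :
    11 / 50 ≤ (1 + w) ^ 2 - e * t := by
  obtain ⟨e0, e1, -, -, -⟩ := h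
  have a1 : (679 / 1000 + 173 / 500 * e) ^ 2 ≤ (1 + w) ^ 2 :=
    pow_le_pow_left₀ (by positivity) (by linarith) 2
  nlinarith [mul_nonneg e0 (sub_nonneg.2 ht)]

lemma u_d (h : Win e r) (ht : t ≤ 1) (hw : -321 / 1000 + 173 / 500 * e ≤ w) (hw' : w ≤ 11 / 100) :
    1 / 10 ≤ GG e r w - e * t := by
  obtain ⟨e0, e1, r0, r1, r2⟩ := h
  unfold GG
  have a1 : 0 ≤ 1 + (1 - e) * w := by nlinarith
  have a2 := mul_nonneg (sub_nonneg.2 r1) a1
  have a3 := mul_nonneg (sub_nonneg.2 r0) a1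
  have a4 := mul_nonneg e0 (sub_nonneg.2 ht)
  have a5 := sub_nonneg.2 hw
  nlinarith [mul_nonneg a5 a5, mul_nonneg a5 e0, mul_nonneg a5 (sub_nonneg.2 e1),
    mul_nonneg e0 (sub_nonneg.2 e1), mul_nonneg (mul_nonneg a5 a5) (sub_nonneg.2 e1),
    mul_nonneg (mul_nonneg a5 e0) (sub_nonneg.2 e1), mul_nonneg (mul_nonneg e0 e0) (sub_nonneg.2 e1)]

lemma u_b (h : Win e r) (hw : -321 / 1000 + 173 / 500 * e ≤ w) :
    -3 / 50 ≤ r - 1 + (1 - e) * (w * (r + w)) := by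
  obtain ⟨e0, e1, r0, r1, r2⟩ := h
  have a1 : 0 ≤ 1 + (1 - e) * w := by nlinarith
  have a2 := mul_nonneg (sub_nonneg.2 r1) a1
  have a3 := mul_nonneg (sub_nonneg.2 r0) a1
  have a5 := sub_nonneg.2 hw
  nlinarith [mul_nonneg a5 a5, mul_nonneg a5 e0, mul_nonneg a5 (sub_nonneg.2 e1),
    mul_nonneg e0 (sub_nonneg.2 e1), mul_nonneg (mul_nonneg a5 a5) (sub_nonneg.2 e1),
    mul_nonneg (mul_nonneg a5 e0) (sub_nonneg.2 e1), mul_nonneg (mul_nonneg e0 e0) (sub_nonneg.2 e1)]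

lemma u_a (h : Win e r) (ht0 : 0 ≤ t) (ht : t ≤ 1) (hw : -321 / 1000 + 173 / 500 * e ≤ w)
    (hw' : w ≤ 11 / 100) :
    -3 / 50 ≤ t * (r - 1 + (1 - e) * w) - (r - 1) * (w * (1 + w)) := by
  obtain ⟨e0, e1, r0, r1, r2⟩ := h
  have a5 := sub_nonneg.2 hw
  have b0 : -3 / 50 ≤ -((r - 1) * (w * (1 + w))) := by
    have : w * (1 + w) ≤ 123 / 1000 := by nlinarith
    nlinarith
  have b1 : -3 / 50 ≤ (r - 1 + (1 - e) * w) - (r - 1) * (w * (1 + w)) := by
    have a1 : 0 ≤ 1 - w * (1 + w) := by nlinarith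
    have a2 := mul_nonneg (sub_nonneg.2 r1) a1
    have a3 := mul_nonneg (sub_nonneg.2 r0) a1
    nlinarith [mul_nonneg a5 (sub_nonneg.2 hw'), mul_nonneg a5 e0, mul_nonneg a5 (sub_nonneg.2 e1),
      mul_nonneg e0 (sub_nonneg.2 e1), mul_nonneg (mul_nonneg a5 (sub_nonneg.2 hw')) e0,
      mul_nonneg (mul_nonneg a5 (sub_nonneg.2 hw')) (sub_nonneg.2 e1)]
  nlinarith [mul_nonneg ht0 (sub_nonneg.2 b1), mul_nonneg (sub_nonneg.2 ht) (sub_nonneg.2 b0)]

lemma u_p (h : Win e r) (ht : t ≤ 1) (hw : -321 / 1000 + 173 / 500 * e ≤ w) (hw' : w ≤ 11 / 100) :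
    7 / 6 * (r - 1 + (1 - e) * (w * (r + w))) ≤ 49 / 50 * ((1 + w) ^ 2 - e * t) - 3 / 50 ∧
    7 / 6 * (r - 1 + (1 - e) * (w * (r + w))) ≤ (1 + w - 1 / 50) * ((1 + w) ^ 2 - e * t) := by
  obtain ⟨e0, e1, r0, r1, r2⟩ := h
  have a1 : 0 ≤ 1 + (1 - e) * w := by nlinarith
  have a2 := mul_nonneg (sub_nonneg.2 r2) a1
  have a4 := mul_nonneg e0 (sub_nonneg.2 ht)
  have a5 := sub_nonneg.2 hw
  have a6 := sub_nonneg.2 hw'
  have a7 := sub_nonneg.2 e1
  constructor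
  · nlinarith [mul_nonneg a5 a5, mul_nonneg a5 e0, mul_nonneg a5 a7, mul_nonneg a6 e0,
      mul_nonneg a6 a7, mul_nonneg e0 a7, mul_nonneg (mul_nonneg a5 a5) e0,
      mul_nonneg (mul_nonneg a5 e0) a7, mul_nonneg (mul_nonneg a6 e0) a7,
      mul_nonneg (mul_nonneg a6 e0) e0, mul_nonneg (mul_nonneg a5 e0) e0]
  · have a8 : 0 ≤ (1 + w - 1 / 50) * (e * (1 - t)) := mul_nonneg (by linarith) a4
    nlinarith [mul_nonneg a5 a5, mul_nonneg a5 e0, mul_nonneg a5 a7, mul_nonneg a6 e0,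
      mul_nonneg a6 a7, mul_nonneg e0 a7, mul_nonneg (mul_nonneg a5 a5) e0,
      mul_nonneg (mul_nonneg a5 a5) a5,
      mul_nonneg (mul_nonneg a5 e0) a7, mul_nonneg (mul_nonneg a6 e0) a7,
      mul_nonneg (mul_nonneg a6 e0) e0, mul_nonneg (mul_nonneg a5 e0) e0]

lemma u_rep (h : Win e r) (hq : q ∈ Icc (-1 / 10 : ℝ) 1)
    (hy : y ∈ Icc (-31 / 50 + 2 / 5 * e + 3 / 10 * q) (9 / 20 - 1 / 2 * q)) :
    RepO (1 / 50) e r q y := by
  obtain ⟨w1, w2⟩ := u_w h hq hy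
  have ht : q ^ 2 ≤ 1 := by nlinarith [hq.1, hq.2]
  have s1 := u_s h ht w1
  have d1 := u_d h ht w1 w2
  have b1 := u_b h w1
  have a1 := u_a h (sq_nonneg q) ht w1 w2
  obtain ⟨p1, p2⟩ := u_p h ht w1 w2
  have e0 := h.e0
  have key : ∀ B X : ℝ, 7 / 6 * B ≤ X → -(7 / 6 * B) ≤ X → 4 / 3 * (q * B) ^ 2 ≤ X ^ 2 :=
    fun B X h1 h2 => by
      have c1 : (7 / 6 * B) ^ 2 ≤ X ^ 2 := sq_le_sq' (by linarith) h1
      nlinarith [mul_nonneg (sub_nonneg.2 ht) (sq_nonneg B), sq_nonneg B]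
  have m1 : 659 / 1000 * (11 / 50) ≤ (1 + q * y - 1 / 50) * ((1 + q * y) ^ 2 - e * q ^ 2) :=
    mul_le_mul (by linarith) s1 (by norm_num) (by linarith)
  unfold RepO dO sO aO bO
  refine ⟨by linarith, by linarith, by linarith, by linarith, key _ _ (by linarith) (by linarith),
    key _ _ (by linarith) (by linarith)⟩

lemma u_lo (h : Win e r) (hq : q ∈ Icc (-1 / 10 : ℝ) 1)
    (hy : y = -31 / 50 + 2 / 5 * e + 3 / 10 * q) : 0 < nO e r q y + 3 / 10 * dO e r q y := by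
  obtain ⟨w1, w2⟩ := u_w h hq (y := y) ⟨hy.ge, by linarith [hq.2, h.e1]⟩
  obtain ⟨e0, e1, r0, r1, r2⟩ := h
  have ht : q ^ 2 ≤ 1 := by nlinarith [hq.1, hq.2]
  have w3 : (-31 / 100 + e / 5) * (1 + q ^ 2) + 3 / 10 * q ^ 2 ≤ q * y := by
    rw [hy]
    nlinarith [mul_nonneg (sq_nonneg (1 - q)) (by linarith : 0 ≤ 31 / 100 - e / 5)]
  have a0 : 0 ≤ y ^ 2 * (1 - e * r + (1 - e) * (q * y)) :=
    mul_nonneg (sq_nonneg y) (by nlinarith)
  have a9 : 0 < (1 - e) * (q * y) + (r - 1) + 3 / 10 * (GG e r (q * y) - e * q ^ 2) := by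
    have t0 := sq_nonneg q
    unfold GG
    generalize q * y = w at *
    generalize q ^ 2 = t at *
    have a1 : 0 ≤ 13 / 10 + 3 / 10 * ((1 - e) * w) := by nlinarith
    have a2 := mul_nonneg (sub_nonneg.2 r1) a1
    have a3 := mul_nonneg (sub_nonneg.2 r0) a1
    have a5 := sub_nonneg.2 w1
    have a6 := sub_nonneg.2 w3
    have a7 := sub_nonneg.2 e1
    have a8 := sub_nonneg.2 ht
    nlinarith [mul_nonneg a5 a5, mul_nonneg a6 e0, mul_nonneg a6 a7, mul_nonneg e0 a7,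
      mul_nonneg a8 e0, mul_nonneg a8 a7, mul_nonneg t0 e0, mul_nonneg t0 a7,
      mul_nonneg (mul_nonneg a5 a5) a7, mul_nonneg (mul_nonneg a6 e0) a7,
      mul_nonneg (mul_nonneg a8 e0) a7, mul_nonneg (mul_nonneg t0 e0) a7,
      mul_nonneg (mul_nonneg e0 e0) a7, mul_nonneg (mul_nonneg a5 e0) a7, mul_nonneg a5 e0,
      mul_nonneg a5 a7]
  unfold nO dO
  nlinarith

lemma u_hi (h : Win e r) (hq : q ∈ Icc (-1 / 10 : ℝ) 1) (hy : y = 9 / 20 - 1 / 2 * q) :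
    nO e r q y < 1 / 2 * dO e r q y := by
  obtain ⟨e0, e1, r0, r1, r2⟩ := h
  obtain ⟨q0, q1⟩ := hq
  have y1 : y ^ 2 ≤ 1 / 4 := by nlinarith
  have w1 : -1 / 20 ≤ q * y := by nlinarith
  have w2 : q * y ≤ 41 / 400 := by rw [hy]; nlinarith [sq_nonneg (q - 9 / 20)]
  have a0 : y ^ 2 * ((1 - e) * (q * y)) ≤ 1 / 4 * max (q * y) 0 := by
    have := le_max_left (q * y) 0
    have := le_max_right (q * y) 0
    refine (mul_le_mul_of_nonneg_left (c := max (q * y) 0) ?_ (sq_nonneg y)).trans (by gcongr)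
    nlinarith
  have a1 : 0 ≤ e * r * y ^ 2 := by positivity
  have a2 : 0 ≤ 1 / 2 - 1 / 2 * ((1 - e) * (q * y)) := by nlinarith
  have a3 := mul_nonneg (sub_nonneg.2 r2) a2
  have a4 : y ^ 2 + 1 / 4 * max (q * y) 0 + e / 2 * q ^ 2 < 3 / 10 + 7 / 20 * e +
      7 / 10 * (1 - e) * (1 - e / 2) * (q * y) + e / 2 * (q * y) := by
    have t1 : q ^ 2 ≤ 1 := by nlinarith
    have c0 : 0 ≤ 7 / 10 * (1 - e) * (1 - e / 2) + e / 2 := by nlinarith
    have c1 : 7 / 10 * (1 - e) * (1 - e / 2) + e / 2 ≤ 7 / 10 := by nlinarith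
    have c2 : y ^ 2 + 3 / 40 * q ^ 2 ≤ 251 / 1000 := by
      rw [hy]
      nlinarith [mul_nonneg (sub_nonneg.2 q0) (sub_nonneg.2 q1)]
    have c3 : e / 2 * q ^ 2 ≤ 7 / 20 * e + 3 / 40 * q ^ 2 := by
      nlinarith [mul_nonneg e0 (sub_nonneg.2 t1), mul_nonneg (sub_nonneg.2 e1) (sq_nonneg q)]
    rcases le_total 0 (q * y) with h | h
    · rw [max_eq_left h]
      nlinarith [mul_nonneg c0 h]
    · rw [max_eq_right h]
      nlinarith [mul_nonneg (sub_nonneg.2 c1) (neg_nonneg.2 h)]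
  unfold nO dO GG
  nlinarith [mul_nonneg (sq_nonneg (q * y)) (by linarith : 0 ≤ 2 - e)]

theorem outU (h : Win e r) {y1 : ℝ} (h1 : -8 / 25 + 2 / 5 * e ≤ y1) (h2 : y1 ≤ -1 / 20) :
    Outer e r 1 y1 := by
  have e0 := h.e0
  have e1 := h.e1
  have hm : ∀ τ ∈ Icc (0 : ℝ) (11 / 10), 1 - τ ∈ Icc (-1 / 10 : ℝ) 1 := fun τ h =>
    ⟨by linarith [h.2], by linarith [h.1]⟩
  have hy : ∀ τ v : ℝ, v ∈ Icc (-8 / 25 + 2 / 5 * e + -3 / 10 * τ) (-1 / 20 + 1 / 2 * τ) →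
      v ∈ Icc (-31 / 50 + 2 / 5 * e + 3 / 10 * (1 - τ)) (9 / 20 - 1 / 2 * (1 - τ)) :=
    fun τ v hv => ⟨by linarith [hv.1], by linarith [hv.2]⟩
  let K : Set (ℝ × ℝ) := {p | p.1 ∈ Icc (-1 / 10 : ℝ) 1 ∧
    p.2 ∈ Icc (-31 / 50 + 2 / 5 * e + 3 / 10 * p.1) (9 / 20 - 1 / 2 * p.1)}
  have hcd : ContDiffOn ℝ 1 (fun p : ℝ × ℝ => nO e r p.1 p.2 / dO e r p.1 p.2) K := by
    refine ContDiffOn.div ?_ ?_ fun p hp => (u_rep h hp.1 hp.2).1.ne'
    · unfold nO; fun_prop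
    · unfold dO GG; fun_prop
  have hcv : Convex ℝ K := by
    rintro p ⟨⟨p1, p2⟩, p3, p4⟩ p' ⟨⟨p1', p2'⟩, p3', p4'⟩ a b ha hb hab
    obtain rfl : b = 1 - a := by linarith
    simp only [K, mem_ofPred_eq, mem_Icc, Prod.fst_add, Prod.snd_add, Prod.smul_fst, Prod.smul_snd,
      smul_eq_mul]
    refine ⟨⟨?_, ?_⟩, ?_, ?_⟩ <;> nlinarith
  have hcp : IsCompact K := by
    refine ((isCompact_Icc (a := (-1 / 10 : ℝ)) (b := 1)).prod
      (isCompact_Icc (a := (-1 : ℝ)) (b := 1))).of_isClosed_subset ?_ fun p hp => ⟨hp.1, ?_, ?_⟩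
    · exact (isClosed_Icc.preimage continuous_fst).inter
        ((isClosed_le (by fun_prop) continuous_snd).inter (isClosed_le continuous_snd (by fun_prop)))
    · linarith [hp.1.1, hp.2.1]
    · linarith [hp.1.1, hp.2.2]
  obtain ⟨L, hL⟩ := hcd.exists_lipschitzOnWith one_ne_zero hcv hcp
  obtain ⟨V, hV0, hV, -⟩ := tube_ode (P := Unit)
    (F := fun _ τ v => nO e r (1 - τ) v / dO e r (1 - τ) v)
    (lo := fun _ τ => -8 / 25 + 2 / 5 * e + -3 / 10 * τ) (hi := fun _ τ => -1 / 20 + 1 / 2 * τ)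
    (lo' := fun _ _ => -3 / 10) (hi' := fun _ _ => 1 / 2) (a := 0) (b := 11 / 10) (by norm_num)
    (by fun_prop) (by fun_prop) (fun _ τ h => by linarith [h.1])
    (hcd.continuousOn.comp (f := fun q : Unit × ℝ × ℝ => (1 - q.2.1, q.2.2)) (by fun_prop)
      fun q hq => ⟨hm _ hq.1, hy _ _ hq.2⟩) L.2
    (fun _ τ h v hv w hw => by
      have := hL.dist_le_mul (1 - τ, v) ⟨hm _ h, hy _ _ hv⟩ (1 - τ, w) ⟨hm _ h, hy _ _ hw⟩
      rwa [Prod.dist_eq, dist_self, max_eq_right dist_nonneg, Real.dist_eq, Real.dist_eq] at this)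
    (fun _ τ => by
      simpa using ((hasDerivAt_id τ).const_mul (-3 / 10 : ℝ)).const_add (-8 / 25 + 2 / 5 * e))
    (fun _ τ => by simpa using ((hasDerivAt_id τ).const_mul (1 / 2 : ℝ)).const_add (-1 / 20))
    (fun _ τ hτ => by
      have h' := Ico_subset_Icc_self hτ
      have a1 := (u_rep h (hm _ h') (hy τ _ ⟨by linarith [hτ.1], le_rfl⟩)).1
      rw [div_lt_iff₀ a1]
      exact u_hi h (hm _ h') (by ring))
    (fun _ τ hτ => by
      have h' := Ico_subset_Icc_self hτ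
      have a1 := (u_rep h (hm _ h') (hy τ _ ⟨le_rfl, by linarith [hτ.1]⟩)).1
      rw [lt_div_iff₀ a1]
      linarith [u_lo h (hm _ h') (y := -8 / 25 + 2 / 5 * e + -3 / 10 * τ) (by ring)])
    (v0 := fun _ => y1) continuous_const (fun _ => ⟨by linarith, by linarith⟩)
  refine ⟨1 / 50, V () (1 - -1 / 10), by norm_num, fun q => V () (1 - q), rfl,
    by simpa using hV0 (), fun q hq => ?_⟩
  have hτ : 1 - q ∈ Icc (0 : ℝ) (11 / 10) := ⟨by linarith [hq.2], by linarith [hq.1]⟩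
  obtain ⟨a1, a2⟩ := hV () _ hτ
  have a3 := hy _ _ a2
  rw [sub_sub_cancel] at a1 a3
  refine ⟨?_, u_rep h hq a3⟩
  have h3 : HasDerivWithinAt (fun q : ℝ => 1 - q) (-1) (Icc (-1 / 10) 1) q :=
    ((hasDerivAt_id q).const_sub 1).hasDerivWithinAt
  have := a1.comp q h3 fun x hx => ⟨by linarith [hx.2], by linarith [hx.1]⟩
  exact this.congr_deriv (by ring)

end

end Pool.Agent.MP_187b32_an.PD

end MrgPart0

-- ======== part 1: formerly Pool.Agent.MP_187b32_an.PD.Out.Seg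
section MrgPart1

/-!
One step of the outer equation between two barriers, and concatenation of steps.
-/

set_option autoImplicit false

open Set

namespace Pool.Agent.MP_187b32_an.PD

open Pool.Agent.MP_187b32_an.Prof (tube_ode)

theorem Seg.trans {lam e r a b c ya yb yc : ℝ} (hab : a ≤ b) (hbc : b ≤ c)
    (h1 : Seg lam e r a b ya yb) (h2 : Seg lam e r b c yb yc) : Seg lam e r a c ya yc := by
  obtain ⟨Y, a1, a2, a3⟩ := h1
  obtain ⟨Z, b1, b2, b3⟩ := h2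
  have eY : ∀ q ∈ Icc a b, (if q ≤ b then Y q else Z q) = Y q := fun q hq => if_pos hq.2
  have eZ : ∀ q ∈ Icc b c, (if q ≤ b then Y q else Z q) = Z q := fun q hq => by
    split_ifs with h
    · rw [le_antisymm h hq.1, a2, b1]
    · rfl
  refine ⟨fun q => if q ≤ b then Y q else Z q, (eY a ⟨le_rfl, hab⟩).trans a1,
    (eZ c ⟨hbc, le_rfl⟩).trans b2, fun q hq => ?_⟩
  rw [← Icc_union_Icc_eq_Icc hab hbc]
  have k1 : HasDerivWithinAt (fun q => if q ≤ b then Y q else Z q)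
      (-nO e r q (if q ≤ b then Y q else Z q) / dO e r q (if q ≤ b then Y q else Z q))
      (Icc a b) q := by
    by_cases h : q ∈ Icc a b
    · rw [eY q h]; exact (a3 q h).1.congr eY (eY q h)
    · exact HasFDerivWithinAt.of_notMem_closure (by rwa [closure_Icc])
  have k2 : HasDerivWithinAt (fun q => if q ≤ b then Y q else Z q)
      (-nO e r q (if q ≤ b then Y q else Z q) / dO e r q (if q ≤ b then Y q else Z q))
      (Icc b c) q := by
    by_cases h : q ∈ Icc b c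
    · rw [eZ q h]; exact (b3 q h).1.congr eZ (eZ q h)
    · exact HasFDerivWithinAt.of_notMem_closure (by rwa [closure_Icc])
  refine ⟨k1.union k2, ?_⟩
  by_cases h : q ≤ b
  · simp only [if_pos h]; exact (a3 q ⟨hq.1, h⟩).2
  · simp only [if_neg h]; exact (b3 q ⟨(not_le.1 h).le, hq.2⟩).2

lemma lip_tube {e r a b : ℝ} {lo hi : ℝ → ℝ} (hlo : Continuous lo) (hhi : Continuous hi)
    (hd : ∀ q ∈ Icc a b, ∀ y ∈ Icc (lo q) (hi q), 0 < dO e r q y) :
    ∃ L : ℝ, 0 ≤ L ∧ ∀ q ∈ Icc a b, ∀ v ∈ Icc (lo q) (hi q), ∀ w ∈ Icc (lo q) (hi q),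
      |nO e r q v / dO e r q v - nO e r q w / dO e r q w| ≤ L * |v - w| := by
  set K : Set (ℝ × ℝ) := {p | p.1 ∈ Icc a b ∧ p.2 ∈ Icc (lo p.1) (hi p.1)} with hK
  have hKc : IsCompact K := by
    obtain ⟨B1, h1⟩ := (isCompact_Icc (a := a) (b := b)).exists_bound_of_continuousOn
      hlo.continuousOn
    obtain ⟨B2, h2⟩ := (isCompact_Icc (a := a) (b := b)).exists_bound_of_continuousOn
      hhi.continuousOn
    refine (isCompact_Icc.prod (isCompact_Icc (a := -B1) (b := B2))).of_isClosed_subset ?_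
      (fun p hp => ⟨hp.1, (abs_le.1 (h1 _ hp.1)).1.trans hp.2.1,
        hp.2.2.trans (abs_le.1 (h2 _ hp.1)).2⟩)
    exact (isClosed_Icc.preimage continuous_fst).inter (IsClosed.inter
      (isClosed_le (hlo.comp continuous_fst) continuous_snd)
      (isClosed_le continuous_snd (hhi.comp continuous_fst)))
  set nY : ℝ → ℝ → ℝ := fun q y => (1 - e * r) * (2 * y) + (1 - e) * (q * (1 + 3 * y ^ 2))
  set dY : ℝ → ℝ → ℝ := fun q y =>
    q * (r + 2 * (q * y)) + (1 + q * y) * (2 * q) - e * (q * (r + 2 * (q * y)))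
  have hn : ∀ q y, HasDerivAt (nO e r q) (nY q y) y := fun q y => by
    have h := hasDerivAt_id y
    have := (((h.pow 2).const_mul (1 - e * r)).add ((((h.const_mul q).mul
      ((h.pow 2).const_add 1))).const_mul (1 - e))).add_const (r - 1)
    refine this.congr_deriv ?_
    simp only [nY, id, Pi.pow_apply]; ring
  have hdd : ∀ q y, HasDerivAt (dO e r q) (dY q y) y := fun q y => by
    have h := (hasDerivAt_id y).const_mul q
    have := (((h.const_add 1).mul ((h.const_mul 2).const_add r)).sub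
      ((h.mul (h.const_add r)).const_mul e)).sub_const (e * q ^ 2)
    refine this.congr_deriv ?_
    simp only [dY, id]; ring
  have hc : ContinuousOn (fun p : ℝ × ℝ =>
      (nY p.1 p.2 * dO e r p.1 p.2 - nO e r p.1 p.2 * dY p.1 p.2) / dO e r p.1 p.2 ^ 2) K := by
    refine ContinuousOn.div ?_ ?_ fun p hp => (pow_pos (hd _ hp.1 _ hp.2) 2).ne'
    · simp only [nY, dY]; unfold nO dO GG; fun_prop
    · unfold dO GG; fun_prop
  obtain ⟨L, hL⟩ := hKc.exists_bound_of_continuousOn hc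
  refine ⟨max L 0, le_max_right _ _, fun q hq v hv w hw => ?_⟩
  exact (convex_Icc (lo q) (hi q)).norm_image_sub_le_of_norm_hasDerivWithin_le
    (f := fun y => nO e r q y / dO e r q y)
    (fun y hy => ((hn q y).div (hdd q y) (hd q hq y hy).ne').hasDerivWithinAt)
    (fun y hy => (hL (q, y) ⟨hq, hy⟩).trans (le_max_left _ _)) hw hv

/-- One step: the variable is `q = m - h * τ`, `τ ∈ [-1, 1]`, the barriers are functions of `τ`. -/
theorem seg_of {e r lam m h y1 : ℝ} {lo hi lo' hi' : ℝ → ℝ} (hh : 0 < h)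
    (hlo : ∀ τ, HasDerivAt lo (lo' τ) τ) (hhi : ∀ τ, HasDerivAt hi (hi' τ) τ)
    (hle : ∀ τ ∈ Icc (-1 : ℝ) 1, lo τ ≤ hi τ)
    (c1 : ∀ τ ∈ Icc (-1 : ℝ) 1, ∀ y ∈ Icc (lo τ) (hi τ), RepO lam e r (m - h * τ) y)
    (c2 : ∀ τ ∈ Icc (-1 : ℝ) 1,
      0 < hi' τ * dO e r (m - h * τ) (hi τ) - h * nO e r (m - h * τ) (hi τ))
    (c3 : ∀ τ ∈ Icc (-1 : ℝ) 1,
      0 < h * nO e r (m - h * τ) (lo τ) - lo' τ * dO e r (m - h * τ) (lo τ))
    (hy : y1 ∈ Icc (lo (-1)) (hi (-1))) :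
    ∃ y0 ∈ Icc (lo 1) (hi 1), Seg lam e r (m - h) (m + h) y0 y1 := by
  have clo : Continuous lo := continuous_iff_continuousAt.2 fun τ => (hlo τ).continuousAt
  have chi : Continuous hi := continuous_iff_continuousAt.2 fun τ => (hhi τ).continuousAt
  have hτ : ∀ q ∈ Icc (m - h) (m + h), (m - q) / h ∈ Icc (-1 : ℝ) 1 := fun q hq =>
    ⟨by rw [le_div_iff₀ hh]; linarith [hq.2], by rw [div_le_iff₀ hh]; linarith [hq.1]⟩
  have hq : ∀ q, m - h * ((m - q) / h) = q := fun q => by field_simp; ring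
  have hq' : ∀ τ, (m - (m - h * τ)) / h = τ := fun τ => by field_simp; ring
  obtain ⟨L, hL0, hL⟩ := lip_tube (e := e) (r := r) (a := m - h) (b := m + h)
    (lo := fun q => lo ((m - q) / h)) (hi := fun q => hi ((m - q) / h)) (by fun_prop) (by fun_prop)
    fun q h' y hy => by have := (c1 _ (hτ q h') y hy).1; rwa [hq] at this
  obtain ⟨V, hV0, hV, -⟩ := tube_ode (P := Unit)
    (F := fun _ τ v => h * (nO e r (m - h * τ) v / dO e r (m - h * τ) v))
    (lo := fun _ => lo) (hi := fun _ => hi) (lo' := fun _ => lo') (hi' := fun _ => hi')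
    (a := -1) (b := 1) (by norm_num) (by fun_prop) (by fun_prop) (fun _ => hle)
    (ContinuousOn.mul continuousOn_const (ContinuousOn.div (by unfold nO; fun_prop)
      (by unfold dO GG; fun_prop) fun p hp => (c1 _ hp.1 _ hp.2).1.ne'))
    (L := h * L) (by positivity)
    (fun _ τ h' v hv w hw => by
      have := hL (m - h * τ) ⟨by nlinarith [h'.2], by nlinarith [h'.1]⟩ v
        (by simpa only [hq'] using hv) w (by simpa only [hq'] using hw)
      rw [← mul_sub, abs_mul, abs_of_pos hh, mul_assoc]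
      exact mul_le_mul_of_nonneg_left this hh.le)
    (fun _ => hlo) (fun _ => hhi)
    (fun _ τ h' => by
      have h'' := Ico_subset_Icc_self h'
      rw [← mul_div_assoc, div_lt_iff₀ (c1 τ h'' _ ⟨hle τ h'', le_rfl⟩).1]
      linarith [c2 τ h''])
    (fun _ τ h' => by
      have h'' := Ico_subset_Icc_self h'
      rw [← mul_div_assoc, lt_div_iff₀ (c1 τ h'' _ ⟨le_rfl, hle τ h''⟩).1]
      linarith [c3 τ h''])
    (v0 := fun _ => y1) continuous_const (fun _ => hy)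
  refine ⟨V () 1, (hV () 1 ⟨by norm_num, le_rfl⟩).2, fun q => V () ((m - q) / h), ?_, ?_,
    fun q h' => ?_⟩
  · simp only [sub_sub_cancel, div_self hh.ne']
  · simp only [sub_add_cancel_left, neg_div, div_self hh.ne', hV0 ()]
  obtain ⟨h1, h2⟩ := hV () _ (hτ q h')
  refine ⟨?_, by have := c1 _ (hτ q h') _ h2; rwa [hq] at this⟩
  have h3 : HasDerivWithinAt (fun q : ℝ => (m - q) / h) (-1 / h) (Icc (m - h) (m + h)) q :=
    (((hasDerivAt_id q).const_sub m).div_const h).hasDerivWithinAt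
  refine (h1.comp q h3 hτ).congr_deriv ?_
  rw [hq]
  field_simp

end Pool.Agent.MP_187b32_an.PD

end MrgPart1

-- marker of a merged file
example : 731051 + 347756 = 731051 + 347756 := rfl
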