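import Pool.Agent.MP_187b32_an.PD.Ser
import Pool.Agent.MP_187b32_an.PD.Out.Seg

/-!
A checker for the outer part of the profile: a chain of steps between polynomial barriers in the
cell variable `ε` and the step variable `τ`, verified in Taylor model arithmetic.
-/

set_option autoImplicit false

open Set

namespace Pool.Agent.MP_187b32_an.PD

lemma RepO.mono {lam lam' e r q y : ℝ} (h : RepO lam e r q y) (hl : lam' ≤ lam) :
    RepO lam' e r q y := by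
  obtain ⟨h1, h2, h3, h4, h5, h6⟩ := h
  have h7 := mul_nonneg (sub_nonneg.2 hl) h2.le
  refine ⟨h1, h2, by nlinarith, by linarith, h5.trans (pow_le_pow_left₀ h3.le (by nlinarith) 2),
    h6.trans (pow_le_pow_left₀ (mul_nonneg (by linarith) h2.le) (by nlinarith) 2)⟩

lemma Seg.mono {lam lam' e r a b ya yb : ℝ} (h : Seg lam e r a b ya yb) (hl : lam' ≤ lam) :
    Seg lam' e r a b ya yb :=
  let ⟨Y, h1, h2, h3⟩ := h
  ⟨Y, h1, h2, fun q hq => ⟨(h3 q hq).1, (h3 q hq).2.mono hl⟩⟩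

lemma Outer.ext {lam e r a b ya yb : ℝ} (h : Outer e r a ya) (hl : 0 < lam) (ha : -1 / 10 ≤ a)
    (hab : a ≤ b) (hs : Seg lam e r a b ya yb) : Outer e r b yb :=
  let ⟨l, y0, h1, h2⟩ := h
  ⟨min l lam, y0, lt_min h1 hl,
    (h2.mono (min_le_left _ _)).trans ha hab (hs.mono (min_le_right _ _))⟩

/-! ### Polynomials in two variables given by lists -/

/-- Horner value in the second variable. -/
def hv2 (ε τ : ℝ) : List (List ℤ) → ℝ
  | [] => 0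
  | l :: L => hv ε l + τ * hv2 ε τ L

/-- Its derivative in the second variable. -/
def dv2 (ε τ : ℝ) : List (List ℤ) → ℝ
  | [] => 0
  | _ :: L => hv2 ε τ L + τ * dv2 ε τ L

lemma hasDerivAt_hv2 (ε τ : ℝ) (L : List (List ℤ)) :
    HasDerivAt (fun τ => hv2 ε τ L) (dv2 ε τ L) τ := by
  induction L with
  | nil => exact hasDerivAt_const _ _
  | cons l L ih =>
    exact (((hasDerivAt_id τ).mul ih).const_add (hv ε l)).congr_deriv (by simp [dv2])

def pk2 (s : ℤ) (L : List (List ℤ)) : ℤ :=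
  List.rec 0 (fun l _ ih => Int.add (pk l) (Int.mul s ih)) L

def l12 (L : List (List ℤ)) : ℕ := List.rec 0 (fun l _ ih => Nat.add (l1 l) ih) L

def pkD (s : ℤ) (L : List (List ℤ)) : ℕ → ℤ :=
  List.rec (fun _ => 0)
    (fun l _ ih j => Int.add (Int.mul (Int.ofNat j) (pk l)) (Int.mul s (ih (Nat.succ j)))) L

def l1D (L : List (List ℤ)) : ℕ → ℕ :=
  List.rec (fun _ => 0) (fun l _ ih j => Nat.add (Nat.mul j (l1 l)) (ih (Nat.succ j))) L

def Cx.ofZ (c : Cx) (P : ℤ) (n : ℕ) : Tm :=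
  frc (Int.toNat (Int.emod P (Int.ofNat c.M))) fun p => frc n fun n => ⟨p, n, n⟩

/-- The kept positions. -/
def KK (a b k : ℕ) : Prop := k % (2 * a + 1) ≤ a ∧ k / (2 * a + 1) ≤ b

lemma rel_low {a b : ℕ} (ε τ : ℝ) {l : List ℤ} (hl : l.length ≤ a + 1) :
    Rel (mu2 a ε τ) (KK a b) (pk l) (hv ε l) (l1 l) :=
  (rel_pk ε l).mono fun k hk =>
    ⟨K_mask2.1 (mu2_low (b := b) ε τ (by omega)).1, (mu2_low (b := b) ε τ (by omega)).2⟩

lemma Rel.shift {a b : ℕ} {ε τ v : ℝ} {P : ℤ} {n : ℕ} (h : Rel (mu2 a ε τ) (KK a b) P v n) :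
    Rel (mu2 a ε τ) (KK a (b + 1)) ((Bs ^ (2 * a + 1) : ℕ) * P) (τ * v) n :=
  (h.term 1 (2 * a + 1) (y := τ) fun k hk => by
    have h1 : (2 * a + 1 + k) % (2 * a + 1) = k % (2 * a + 1) := Nat.add_mod_left _ _
    have h2 : (2 * a + 1 + k) / (2 * a + 1) = k / (2 * a + 1) + 1 := Nat.add_div_left _ (by omega)
    exact ⟨⟨h1 ▸ hk.1, h2 ▸ Nat.succ_le_succ hk.2⟩, by rw [mu2, h1, h2, mu2]; ring⟩).cast
    (by simp) (by simp) (by simp)

lemma rel_pk2 {a : ℕ} (ε τ : ℝ) {L : List (List ℤ)} (hL : ∀ l ∈ L, l.length ≤ a + 1) {b : ℕ}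
    (hb : L.length ≤ b + 1) :
    Rel (mu2 a ε τ) (KK a b) (pk2 (Bs ^ (2 * a + 1) : ℕ) L) (hv2 ε τ L) (l12 L) := by
  induction L generalizing b with
  | nil => exact .nil _
  | cons l L ih =>
    have h1 := rel_low (b := b) ε τ (hL l (by simp))
    cases b with
    | zero =>
      obtain rfl : L = [] := List.length_eq_zero_iff.1 (by simpa using hb)
      exact h1.cast (by simp [pk2]) (by simp [hv2]) (by simp [l12])
    | succ b =>
      exact h1.add (ih (fun l' h => hL l' (by simp [h])) (by simpa using hb)).shift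

lemma rel_pkD {a : ℕ} (ε τ : ℝ) {L : List (List ℤ)} (hL : ∀ l ∈ L, l.length ≤ a + 1) {b : ℕ}
    (hb : L.length ≤ b + 1) (j : ℕ) : Rel (mu2 a ε τ) (KK a b) (pkD (Bs ^ (2 * a + 1) : ℕ) L j)
      (j * hv2 ε τ L + τ * dv2 ε τ L) (l1D L j) := by
  induction L generalizing b j with
  | nil => exact (Rel.nil _).cast rfl (by simp [hv2, dv2]) le_rfl
  | cons l L ih =>
    have h1 : Rel (mu2 a ε τ) (KK a b) (j * pk l) (j * hv ε l) (j * l1 l) :=
      ((rel_low (b := b) ε τ (hL l (by simp))).term j 0 (y := 1) (by simp)).cast (by simp)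
        (by simp) (by simp)
    cases b with
    | zero =>
      obtain rfl : L = [] := List.length_eq_zero_iff.1 (by simpa using hb)
      exact h1.cast (by simp [pkD]) (by simp [hv2, dv2]) (by simp [l1D])
    | succ b =>
      exact (h1.add (ih (fun l' h => hL l' (by simp [h])) (by simpa using hb) (j + 1)).shift).cast
        rfl (by simp only [hv2, dv2]; push_cast; ring) le_rfl

lemma rel_end {a b : ℕ} (ε τ : ℝ) {L : List (List ℤ)} (hL : ∀ l ∈ L, l.length ≤ a + 1) {z : ℤ}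
    (hz : z.natAbs = 1) : Rel (mu2 a ε τ) (KK a b) (pk2 z L) (hv2 ε z L) (l12 L) := by
  induction L with
  | nil => exact .nil _
  | cons l L ih =>
    have h1 : Rel (mu2 a ε τ) (KK a b) (z * pk2 z L) (z * hv2 ε z L) (l12 L) :=
      ((ih fun l' h => hL l' (by simp [h])).term z 0 (y := 1) (by simp)).cast (by simp) (by simp)
        (by rw [hz, one_mul])
    exact (rel_low (b := b) ε τ (hL l (by simp))).add h1

lemma mem_ofZ {a b : ℕ} {μ : ℕ → ℝ} {P : ℤ} {v : ℝ} {n : ℕ} (h : Rel μ (KK a b) P v n) :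
    Mem (mkCx (mask2 a b)) μ (v / sc) ((mkCx (mask2 a b)).ofZ P n) := by
  have hM : 0 < (mkCx (mask2 a b)).M := pow_pos (by norm_num [Bs]) _
  have e : (mkCx (mask2 a b)).ofZ P n = ⟨(P % (mkCx (mask2 a b)).M).toNat, n, n⟩ := by
    simp only [Cx.ofZ, frc_eq]; rfl
  rw [e]
  refine ⟨P, v, h.mono fun k hk => ⟨K_mask2.2 hk, rfl⟩, ?_, by simp [sc_pos.ne']⟩
  rw [Int.toNat_of_nonneg (Int.emod_nonneg _ (by exact_mod_cast hM.ne'))]
  exact Int.mod_modEq _ _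

/-! ### The checks -/

/-- Enclosures of `r, 1, -e, 1 - e, 1 - e r, r - 1, 1 - r, 99 / 100`. -/
structure Par where
  R : Tm
  one : Tm
  nE : Tm
  oe : Tm
  er : Tm
  r1 : Tm
  nr : Tm
  ol : Tm

def withPar {β : Type} (c : Cx) (E R : Tm) (k : Par → β) : β :=
  frcT R fun R => frcT (nat 1) fun one => frcT (c.neg E) fun nE =>
  frcT (c.mul one (one.add nE)) fun oe => frcT (c.dot [one, nE] [one, R]) fun er =>
  frcT (c.mul one (c.sub R one)) fun r1 => frcT (c.neg r1) fun nr => frcT (rat 99 100) fun ol =>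
  k ⟨R, one, nE, oe, er, r1, nr, ol⟩

structure Par.In (P : Par) (c : Cx) (μ : ℕ → ℝ) (e r : ℝ) : Prop where
  R : Mem c μ r P.R
  one : Mem c μ 1 P.one
  nE : Mem c μ (-e) P.nE
  oe : Mem c μ (1 - e) P.oe
  er : Mem c μ (1 - e * r) P.er
  r1 : Mem c μ (r - 1) P.r1
  nr : Mem c μ (-(r - 1)) P.nr
  ol : Mem c μ (1 - 1 / 100) P.ol

def dT (c : Cx) (P : Par) (Q2 w u : Tm) : Tm :=
  c.dot [P.one.add w, P.nE, P.nE] [P.R.add (w.smul 2), u, Q2]

def barOk (c : Cx) (P : Par) (Q Q2 Y A B : Tm) : Bool :=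
  frcT (c.mul Q Y) fun w => frcT (c.mul Y Y) fun y2 => frcT (c.mul w (P.R.add w)) fun u =>
  frcT (dT c P Q2 w u) fun d => frcT (c.mul w (P.one.add y2)) fun v =>
  frcT (c.dot [P.er, P.oe, P.one] [y2, v, P.r1]) fun n => (c.dot [A, B] [d, n]).pos

def absOk (c : Cx) (P : Par) (p b : Tm) : Bool :=
  (c.mul P.one ((p.smul 6).add (b.smul 7))).pos && (c.mul P.one (c.sub (p.smul 6) (b.smul 7))).pos

def repOk (c : Cx) (P : Par) (Q Q2 Y : Tm) : Bool :=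
  frcT (c.mul Q Y) fun w => frcT (c.mul w (P.R.add w)) fun u =>
  frcT (c.dot [P.one.add w, P.nE] [P.one.add w, Q2]) fun s =>
  frcT (c.mul P.one (P.ol.add w)) fun x => frcT (c.dot [P.oe, P.one] [u, P.r1]) fun b =>
  frcT (c.mul Q b) fun qb => frcT (c.dot [P.oe, P.one] [w, P.r1]) fun a1 =>
  frcT (c.mul w (P.one.add w)) fun a2 => frcT (c.dot [P.ol, Q2, P.nr] [s, a1, a2]) fun p =>
  frcT (c.mul x s) fun xs =>
  (dT c P Q2 w u).pos && s.pos && x.pos && absOk c P p qb && absOk c P xs qb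

section
variable {c : Cx} {μ : ℕ → ℝ} {P : Par} {e r q y α β : ℝ} {E R Q Q2 Y A B : Tm}

lemma Mem.dot2 (h : c.Ok μ) {x1 x2 y1 y2 : ℝ} {a1 a2 b1 b2 : Tm} (h1 : Mem c μ x1 a1)
    (h2 : Mem c μ x2 a2) (k1 : Mem c μ y1 b1) (k2 : Mem c μ y2 b2) :
    Mem c μ (x1 * y1 + x2 * y2) (c.dot [a1, a2] [b1, b2]) :=
  (Mem.dot h (.cons h1 (.cons h2 .nil)) (.cons k1 (.cons k2 .nil))).of_eq (by simp)

lemma Mem.dot3 (h : c.Ok μ) {x1 x2 x3 y1 y2 y3 : ℝ} {a1 a2 a3 b1 b2 b3 : Tm} (h1 : Mem c μ x1 a1)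
    (h2 : Mem c μ x2 a2) (h3 : Mem c μ x3 a3) (k1 : Mem c μ y1 b1) (k2 : Mem c μ y2 b2)
    (k3 : Mem c μ y3 b3) :
    Mem c μ (x1 * y1 + (x2 * y2 + x3 * y3)) (c.dot [a1, a2, a3] [b1, b2, b3]) :=
  (Mem.dot h (.cons h1 (.cons h2 (.cons h3 .nil))) (.cons k1 (.cons k2 (.cons k3 .nil)))).of_eq
    (by simp)

lemma withPar_ex {γ : Type} (c : Cx) (E R : Tm) (k : Par → γ) : ∃ P, withPar c E R k = k P ∧
    ∀ μ e r, c.Ok μ → Mem c μ e E → Mem c μ r R → P.In c μ e r := by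
  refine ⟨⟨R, nat 1, c.neg E, c.mul (nat 1) ((nat 1).add (c.neg E)),
    c.dot [nat 1, c.neg E] [nat 1, R], c.mul (nat 1) (c.sub R (nat 1)),
    c.neg (c.mul (nat 1) (c.sub R (nat 1))), rat 99 100⟩, ?_,
    fun μ e r h hE hR => ?_⟩
  · unfold withPar
    iterate 8 rw [frcT_eq]
  have h1 : Mem c μ 1 (nat 1) := (mem_nat h 1).of_eq Nat.cast_one
  have h2 : Mem c μ (r - 1) (c.mul (nat 1) (c.sub R (nat 1))) :=
    (h1.mul h (hR.sub h h1)).of_eq (one_mul _)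
  constructor <;> dsimp only
  exacts [hR, h1, hE.neg h, (h1.mul h (h1.add (hE.neg h))).of_eq (by ring),
    (Mem.dot2 h h1 (hE.neg h) h1 hR).of_eq (by ring), h2, h2.neg h,
    (mem_rat h 99 (by norm_num : 0 < 100)).of_eq (by norm_num)]

lemma dT_mem (h : c.Ok μ) (hP : P.In c μ e r) (hQ2 : Mem c μ (q ^ 2) Q2) {w u : Tm}
    (hw : Mem c μ (q * y) w) (hu : Mem c μ (q * y * (r + q * y)) u) :
    Mem c μ (dO e r q y) (dT c P Q2 w u) :=
  (Mem.dot3 h (hP.one.add hw) hP.nE hP.nE (hP.R.add (hw.smul 2)) hu hQ2).of_eq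
    (by unfold dO GG; push_cast; ring)

lemma barOk_sound (h : c.Ok μ) (hP : P.In c μ e r) (hQ : Mem c μ q Q) (hQ2 : Mem c μ (q ^ 2) Q2)
    (hY : Mem c μ y Y) (hA : Mem c μ α A) (hB : Mem c μ β B)
    (hc : barOk c P Q Q2 Y A B = true) : 0 < α * dO e r q y + β * nO e r q y := by
  simp only [barOk, frcT_eq] at hc
  have hw := hQ.mul h hY
  have hy := hY.mul h hY
  have hn : Mem c μ (nO e r q y) _ :=
    (Mem.dot3 h hP.er hP.oe hP.one hy (hw.mul h (hP.one.add hy)) hP.r1).of_eq (by unfold nO; ring)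
  exact (Mem.dot2 h hA hB (dT_mem h hP hQ2 hw (hw.mul h (hP.R.add hw))) hn).pos h hc

lemma absOk_sound (h : c.Ok μ) (hP : P.In c μ e r) (hA : Mem c μ α A) (hB : Mem c μ β B)
    (hc : absOk c P A B = true) : 0 < α ∧ 4 / 3 * β ^ 2 ≤ α ^ 2 := by
  simp only [absOk, Bool.and_eq_true] at hc
  have h1 := (hP.one.mul h ((hA.smul 6).add (hB.smul 7))).pos h hc.1
  have h2 := (hP.one.mul h ((hA.smul 6).sub h (hB.smul 7))).pos h hc.2
  push_cast at h1 h2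
  exact ⟨by linarith, by nlinarith [mul_pos h1 h2, sq_nonneg β]⟩

lemma repOk_sound (h : c.Ok μ) (hP : P.In c μ e r) (hQ : Mem c μ q Q) (hQ2 : Mem c μ (q ^ 2) Q2)
    (hY : Mem c μ y Y) (hc : repOk c P Q Q2 Y = true) : RepO (1 / 100) e r q y := by
  simp only [repOk, frcT_eq, Bool.and_eq_true] at hc
  obtain ⟨⟨⟨⟨c1, c2⟩, c3⟩, c4⟩, c5⟩ := hc
  have hw := hQ.mul h hY
  have hu := hw.mul h (hP.R.add hw)
  have hs : Mem c μ (sO e q y) _ :=
    (Mem.dot2 h (hP.one.add hw) hP.nE (hP.one.add hw) hQ2).of_eq (by unfold sO; ring)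
  have hx : Mem c μ (1 + q * y - 1 / 100) _ := (hP.one.mul h (hP.ol.add hw)).of_eq (by ring)
  have hb : Mem c μ (q * bO e r q y) _ :=
    (hQ.mul h (Mem.dot2 h hP.oe hP.one hu hP.r1)).of_eq (by unfold bO; ring)
  have hp : Mem c μ ((1 - 1 / 100) * sO e q y + aO e r q y) _ :=
    (Mem.dot3 h hP.ol hQ2 hP.nr hs (Mem.dot2 h hP.oe hP.one hw hP.r1)
      (hw.mul h (hP.one.add hw))).of_eq (by unfold aO; ring)
  obtain ⟨k1, k2⟩ := absOk_sound h hP hp hb c4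
  exact ⟨(dT_mem h hP hQ2 hw hu).pos h c1, hs.pos h c2, k1, by linarith [hx.pos h c3], k2,
    (absOk_sound h hP (hx.mul h hs) hb c5).2⟩

end

/-- One step, down to `q / D`, with the two barriers. -/
structure St where
  q : ℕ
  hi : List (List ℤ)
  lo : List (List ℤ)

def lenOk (a b : ℕ) (L : List (List ℤ)) : Bool :=
  Nat.ble L.length (b + 1) && L.all fun l => Nat.ble l.length (a + 1)

def stepOk (a b : ℕ) (c : Cx) (P : Par) (D q : ℕ) (s : St) (L U : Tm) : Bool :=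
  frc (Nat.pow Bs (2 * a + 1)) fun S =>
  frcT (rat (q - s.q) (2 * D)) fun h => frcT (c.neg h) fun nh =>
  frcT (c.dot [rat (q + s.q) (2 * D), nh] [P.one, mono (2 * a + 1)]) fun Q =>
  frcT (c.mul Q Q) fun Q2 =>
  frcT (c.ofZ (pk2 (Int.ofNat S) s.hi) (l12 s.hi)) fun Hi =>
  frcT (c.ofZ (pk2 (Int.ofNat S) s.lo) (l12 s.lo)) fun Lo =>
  frcT (c.mul P.one (c.sub Hi Lo)) fun Df =>
  Nat.blt s.q q && lenOk a b s.hi && lenOk a b s.lo && Df.pos &&
    (c.mul P.one (c.sub (c.ofZ (pk2 (-1) s.hi) (l12 s.hi)) U)).pos &&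
    (c.mul P.one (c.sub L (c.ofZ (pk2 (-1) s.lo) (l12 s.lo)))).pos &&
    barOk c P Q Q2 Hi (c.ofZ (pkD (Int.ofNat S) s.hi.tail 1) (l1D s.hi.tail 1)) nh &&
    barOk c P Q Q2 Lo (c.neg (c.ofZ (pkD (Int.ofNat S) s.lo.tail 1) (l1D s.lo.tail 1))) h &&
    frcT (Lo.add (c.mul ((rat 1 2).wid hsc) Df)) fun Y => repOk c P Q Q2 Y
where hsc : ℕ := 3138550867693340381917894711603833208051177722232017256448

lemma lenOk_sound {a b : ℕ} {L : List (List ℤ)} (h : lenOk a b L = true) :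
    L.length ≤ b + 1 ∧ ∀ l ∈ L, l.length ≤ a + 1 := by
  simpa [lenOk, Nat.ble_eq] using h

lemma mem_dv2 {a b : ℕ} (ε τ : ℝ) {L : List (List ℤ)} (h : lenOk a b L = true) :
    Mem (mkCx (mask2 a b)) (mu2 a ε τ) (dv2 ε τ L / sc)
      ((mkCx (mask2 a b)).ofZ (pkD (Bs ^ (2 * a + 1) : ℕ) L.tail 1) (l1D L.tail 1)) := by
  obtain ⟨h1, h2⟩ := lenOk_sound h
  refine (mem_ofZ (rel_pkD ε τ (fun l hl => h2 l (List.mem_of_mem_tail hl))
    (by rw [List.length_tail]; omega) 1)).of_eq ?_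
  cases L <;> simp [hv2, dv2]

lemma stepOk_sound {a b D q : ℕ} (hb : 1 ≤ b) (hD : 0 < D) {ε e r l u y : ℝ} (hε : |ε| ≤ 1)
    {P : Par} (hP : ∀ τ, |τ| ≤ 1 → P.In (mkCx (mask2 a b)) (mu2 a ε τ) e r) {s : St} {L U : Tm}
    (hL : Mem (mkCx (mask2 a b)) (mu2 a ε 0) l L) (hU : Mem (mkCx (mask2 a b)) (mu2 a ε 0) u U)
    (hc : stepOk a b (mkCx (mask2 a b)) P D q s L U = true) (hy : y ∈ Icc l u) :
    s.q < q ∧ (∀ l ∈ s.lo, l.length ≤ a + 1) ∧ (∀ l ∈ s.hi, l.length ≤ a + 1) ∧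
      ∃ y0 ∈ Icc (hv2 ε 1 s.lo / sc) (hv2 ε 1 s.hi / sc),
        Seg (1 / 100) e r (s.q / D) (q / D) y0 y := by
  simp only [stepOk, frcT_eq, frc_eq, Bool.and_eq_true, Nat.blt_eq] at hc
  obtain ⟨⟨⟨⟨⟨⟨⟨⟨c1, c2⟩, c3⟩, c4⟩, c5⟩, c6⟩, c7⟩, c8⟩, c9⟩ := hc
  obtain ⟨l1, l2⟩ := lenOk_sound c2
  obtain ⟨l3, l4⟩ := lenOk_sound c3
  refine ⟨c1, l4, l2, ?_⟩
  have hD' : (0 : ℝ) < D := by exact_mod_cast hD
  have hq : (s.q : ℝ) < q := by exact_mod_cast c1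
  set m : ℝ := (q + s.q) / (2 * D) with hm
  set h : ℝ := (q - s.q) / (2 * D) with hh
  have ab : ∀ τ ∈ Icc (-1 : ℝ) 1, |τ| ≤ 1 := fun τ hτ => abs_le.2 hτ
  have mh : ∀ τ, |τ| ≤ 1 → Mem (mkCx (mask2 a b)) (mu2 a ε τ) h (rat (q - s.q) (2 * D)) :=
    fun τ hτ => (mem_rat (ok2 a b hε hτ) _ (by omega)).of_eq (by
      rw [Nat.cast_sub c1.le]; push_cast; rfl)
  have mQ : ∀ τ, |τ| ≤ 1 → Mem (mkCx (mask2 a b)) (mu2 a ε τ) (m - h * τ) _ := fun τ hτ =>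
    (Mem.dot2 (ok2 a b hε hτ) (mem_rat (ok2 a b hε hτ) (q + s.q) (by omega : 0 < 2 * D))
      ((mh τ hτ).neg (ok2 a b hε hτ)) (hP τ hτ).one
      (by simpa using mem_pow (a := a) ε τ hb)).of_eq (by rw [hm]; push_cast; ring)
  have mQ2 : ∀ τ, |τ| ≤ 1 → Mem (mkCx (mask2 a b)) (mu2 a ε τ) ((m - h * τ) ^ 2) _ := fun τ hτ =>
    ((mQ τ hτ).mul (ok2 a b hε hτ) (mQ τ hτ)).of_eq (sq _).symm
  have mH := fun τ => mem_ofZ (rel_pk2 ε τ l2 l1)
  have mL := fun τ => mem_ofZ (rel_pk2 ε τ l4 l3)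
  have mD : ∀ τ, |τ| ≤ 1 → Mem (mkCx (mask2 a b)) (mu2 a ε τ)
      (hv2 ε τ s.hi / sc - hv2 ε τ s.lo / sc) _ := fun τ hτ =>
    ((hP τ hτ).one.mul (ok2 a b hε hτ) ((mH τ).sub (ok2 a b hε hτ) (mL τ))).of_eq (one_mul _)
  have pD := fun τ hτ => (mD τ hτ).pos (ok2 a b hε hτ) c4
  have z0 : |(0 : ℝ)| ≤ 1 := by simp
  have o0 := ok2 a b hε z0
  have j1 := ((hP 0 z0).one.mul o0 ((mem_ofZ (rel_end ε 0 l2 (z := -1) rfl)).sub o0 hU)).pos o0 c5
  have j2 := ((hP 0 z0).one.mul o0 (hL.sub o0 (mem_ofZ (rel_end ε 0 l4 (z := -1) rfl)))).pos o0 c6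
  push_cast at j1 j2
  obtain ⟨y0, h0, hs⟩ := seg_of (e := e) (r := r) (lam := 1 / 100) (m := m) (h := h) (y1 := y)
    (lo := fun τ => hv2 ε τ s.lo / sc) (hi := fun τ => hv2 ε τ s.hi / sc)
    (lo' := fun τ => dv2 ε τ s.lo / sc) (hi' := fun τ => dv2 ε τ s.hi / sc)
    (div_pos (by linarith) (by linarith))
    (fun τ => (hasDerivAt_hv2 ε τ _).div_const _) (fun τ => (hasDerivAt_hv2 ε τ _).div_const _)
    (fun τ hτ => by linarith [pD τ (ab τ hτ)])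
    (fun τ hτ z hz => by
      have o := ok2 a b hε (ab τ hτ)
      have p := pD τ (ab τ hτ)
      set θ := (z - hv2 ε τ s.lo / sc) / (hv2 ε τ s.hi / sc - hv2 ε τ s.lo / sc) with hθ
      have t0 : 0 ≤ θ := div_nonneg (by linarith [hz.1]) p.le
      have t1 : θ ≤ 1 := (div_le_one p).2 (by linarith [hz.2])
      have mθ : Mem (mkCx (mask2 a b)) (mu2 a ε τ) θ ((rat 1 2).wid stepOk.hsc) :=
        (mem_rat o 1 two_pos).wid (by
          have e1 : (stepOk.hsc : ℝ) = 1 / 2 * sc := by norm_num [stepOk.hsc, sc]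
          rw [e1]
          refine mul_le_mul_of_nonneg_right (abs_le.2 ⟨?_, ?_⟩) sc_pos.le <;> push_cast <;>
            linarith)
      exact repOk_sound o (hP τ (ab τ hτ)) (mQ τ (ab τ hτ)) (mQ2 τ (ab τ hτ))
        (((mL τ).add (mθ.mul o (mD τ (ab τ hτ)))).of_eq 
          (by rw [hθ, div_mul_cancel₀ _ p.ne']; ring)) c9)
    (fun τ hτ => by
      have o := ok2 a b hε (ab τ hτ)
      linarith [barOk_sound o (hP τ (ab τ hτ)) (mQ τ (ab τ hτ)) (mQ2 τ (ab τ hτ)) (mH τ)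
        (mem_dv2 ε τ c2) ((mh τ (ab τ hτ)).neg o) c7])
    (fun τ hτ => by
      have o := ok2 a b hε (ab τ hτ)
      linarith [barOk_sound o (hP τ (ab τ hτ)) (mQ τ (ab τ hτ)) (mQ2 τ (ab τ hτ)) (mL τ)
        ((mem_dv2 ε τ c3).neg o) (mh τ (ab τ hτ)) c8])
    ⟨by linarith [hy.1], by linarith [hy.2]⟩
  refine ⟨y0, h0, ?_⟩
  rwa [show m - h = s.q / D by rw [hm, hh]; field_simp; ring,
    show m + h = q / D by rw [hm, hh]; field_simp; ring] at hs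

def finOk (c : Cx) (P : Par) (L U : Tm) : Bool :=
  (c.mul P.one (((L.smul 25).add (nat 8)).add (P.nE.smul 10))).pos &&
    (c.mul (c.neg P.one) (P.one.add (U.smul 20))).pos &&
    (c.mul P.one (P.one.add (P.nE.smul 2))).pos &&
    (c.mul P.one (c.sub (P.R.smul 1000) (nat 1036))).pos &&
    (c.mul P.one (c.sub (P.R.smul 10) ((nat 13).add (P.nE.smul 6)))).pos &&
    (c.mul P.one (c.sub ((nat 14).add (P.nE.smul 7)) (P.R.smul 10))).pos

def steps (a b : ℕ) (c : Cx) (P : Par) (D : ℕ) (l : List St) : ℕ → Tm → Tm → Bool :=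
  List.rec (fun q L U => Nat.beq q D && finOk c P L U)
    (fun s _ ih q L U => stepOk a b c P D q s L U &&
      ih s.q (c.ofZ (pk2 1 s.lo) (l12 s.lo)) (c.ofZ (pk2 1 s.hi) (l12 s.hi))) l

lemma steps_sound {a b D : ℕ} (hb : 1 ≤ b) (hD : 0 < D) {ε e r : ℝ} (hε : |ε| ≤ 1) (he : 0 ≤ e)
    {P : Par} (hP : ∀ τ, |τ| ≤ 1 → P.In (mkCx (mask2 a b)) (mu2 a ε τ) e r) (S : List St)
    {q : ℕ} {l u y : ℝ} {L U : Tm}
    (hL : Mem (mkCx (mask2 a b)) (mu2 a ε 0) l L) (hU : Mem (mkCx (mask2 a b)) (mu2 a ε 0) u U)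
    (hc : steps a b (mkCx (mask2 a b)) P D S q L U = true) (hy : y ∈ Icc l u) :
    Outer e r (q / D) y := by
  have hD' : (0 : ℝ) < D := by exact_mod_cast hD
  induction S generalizing q l u y L U with
  | nil =>
    simp only [steps, finOk, Bool.and_eq_true, Nat.beq_eq] at hc
    obtain ⟨rfl, ⟨⟨⟨⟨c1, c2⟩, c3⟩, c4⟩, c5⟩, c6⟩ := hc
    have z0 : |(0 : ℝ)| ≤ 1 := by simp
    have o := ok2 a b hε z0
    have p := hP 0 z0
    have k1 := (p.one.mul o (((hL.smul 25).add (mem_nat o 8)).add (p.nE.smul 10))).pos o c1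
    have k2 := ((p.one.neg o).mul o (p.one.add (hU.smul 20))).pos o c2
    have k3 := (p.one.mul o (p.one.add (p.nE.smul 2))).pos o c3
    have k4 := (p.one.mul o ((p.R.smul 1000).sub o (mem_nat o 1036))).pos o c4
    have k5 := (p.one.mul o ((p.R.smul 10).sub o ((mem_nat o 13).add (p.nE.smul 6)))).pos o c5
    have k6 := (p.one.mul o (((mem_nat o 14).add (p.nE.smul 7)).sub o (p.R.smul 10))).pos o c6
    push_cast at k1 k2 k3 k4 k5 k6
    rw [div_self hD'.ne']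
    exact outU ⟨he, by linarith, by linarith, by linarith, by linarith⟩ (by linarith [hy.1])
      (by linarith [hy.2])
  | cons s S ih =>
    have hc' : (stepOk a b (mkCx (mask2 a b)) P D q s L U &&
        steps a b (mkCx (mask2 a b)) P D S s.q ((mkCx (mask2 a b)).ofZ (pk2 1 s.lo) (l12 s.lo))
          ((mkCx (mask2 a b)).ofZ (pk2 1 s.hi) (l12 s.hi))) = true := hc
    rw [Bool.and_eq_true] at hc'
    obtain ⟨h1, h2, h3, y0, h4, h5⟩ := stepOk_sound hb hD hε hP hL hU hc'.1 hy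
    have h6 := ih (mem_ofZ (rel_end ε 0 h2 (z := 1) rfl)) (mem_ofZ (rel_end ε 0 h3 (z := 1) rfl))
      hc'.2 (y := y0) (by simpa using h4)
    refine h6.ext (by norm_num) ?_ ?_ h5
    · have : (0 : ℝ) ≤ s.q / D := by positivity
      linarith
    · gcongr

/-- The complete check for enclosures `E, R, Y` of `e, r` and of the value at `q / D`. -/
def outOk (a b : ℕ) (E R Y : Tm) (D q : ℕ) (S : List St) : Bool :=
  Nat.ble 1 b && Nat.blt 0 D && withCx (mask2 a b) fun c => withPar c E R fun P =>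
    frcT Y fun Y => steps a b c P D S q Y Y

theorem outer_of_ok {a b D q : ℕ} {ε e r y : ℝ} (hε : |ε| ≤ 1) (he : 0 ≤ e) {E R Y : Tm}
    (hE : ∀ τ, |τ| ≤ 1 → Mem (mkCx (mask2 a b)) (mu2 a ε τ) e E)
    (hR : ∀ τ, |τ| ≤ 1 → Mem (mkCx (mask2 a b)) (mu2 a ε τ) r R)
    (hY : Mem (mkCx (mask2 a b)) (mu2 a ε 0) y Y) {S : List St}
    (hc : outOk a b E R Y D q S = true) : Outer e r (q / D) y := by
  simp only [outOk, withCx_eq, Bool.and_eq_true, Nat.ble_eq, Nat.blt_eq] at hc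
  obtain ⟨⟨hb, hD⟩, hc⟩ := hc
  obtain ⟨P, h1, h2⟩ := withPar_ex (mkCx (mask2 a b)) E R
    fun P => frcT Y fun Y => steps a b (mkCx (mask2 a b)) P D S q Y Y
  rw [h1, frcT_eq] at hc
  exact steps_sound hb hD hε he (fun τ hτ => h2 _ e r (ok2 a b hε hτ) (hE τ hτ) (hR τ hτ)) S hY hY
    hc ⟨le_rfl, le_rfl⟩

/-- The same check for windows around polynomials in `ε` given by lists. -/
def cellOk (a b : ℕ) (El Rl Yl : List ℤ) (de dr dy D q : ℕ) (S : List St) : Bool :=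
  lenOk a 2 [El, Rl, Yl] && Nat.ble 1 b && Nat.blt 0 D && withCx (mask2 a b) fun c =>
    withPar c ((c.ofL El).wid de) ((c.ofL Rl).wid dr) fun P =>
      frcT ((c.ofL Yl).wid dy) fun Y => steps a b c P D S q Y Y

theorem outer_cell {a b de dr dy D q : ℕ} {ε e r y : ℝ} (hε : |ε| ≤ 1) (he : 0 ≤ e)
    {El Rl Yl : List ℤ} (hE : |e - hv ε El / sc| * sc ≤ de) (hR : |r - hv ε Rl / sc| * sc ≤ dr)
    (hY : |y - hv ε Yl / sc| * sc ≤ dy) {S : List St}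
    (hc : cellOk a b El Rl Yl de dr dy D q S = true) : Outer e r (q / D) y := by
  simp only [cellOk, withCx_eq, Bool.and_eq_true] at hc
  obtain ⟨⟨⟨h1, h2⟩, h3⟩, h4⟩ := hc
  have h5 := (lenOk_sound h1).2
  refine outer_of_ok (b := b) hε he (fun τ hτ => (mem_eps hε hτ (h5 El (by simp))).wid hE)
    (fun τ hτ => (mem_eps hε hτ (h5 Rl (by simp))).wid hR)
    ((mem_eps hε (by simp) (h5 Yl (by simp))).wid hY) (S := S) ?_
  simp only [outOk, withCx_eq, Bool.and_eq_true]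
  exact ⟨⟨h2, h3⟩, h4⟩

end Pool.Agent.MP_187b32_an.PD
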